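import Mathlib

/-!
Shifts of finite type whose minimum step is quadratic in the number of vertices of a minimal
synchronizing deterministic presentation.
-/

namespace Pool.Agent.Results.MP_560fdc_co.QuadraticStep

open Filter

/-- A labelled graph on `V` with labels in `α` is given by its set of edges `E u a v`
(an edge from `u` to `v` labelled `a`). `XG E` is the set of labels of bi-infinite walks. -/
def XG {V α : Type} (E : V → α → V → Prop) : Set (ℤ → α) :=
  {x | ∃ v : ℤ → V, ∀ i, E (v i) (x i) (v (i + 1))}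

/-- No vertex has two outgoing edges with the same label. -/
def Deterministic {V α : Type} (E : V → α → V → Prop) : Prop :=
  ∀ u a v v', E u a v → E u a v' → v = v'

/-- There is a path labelled `w` from `u` to `v`. -/
def Path {V α : Type} (E : V → α → V → Prop) : V → List α → V → Prop
  | u, [], v => u = v
  | u, a :: w, v => ∃ u', E u a u' ∧ Path E u' w v

/-- The word `w` synchronizes to `q`. -/
def SyncTo {V α : Type} (E : V → α → V → Prop) (w : List α) (q : V) : Prop :=
  (∃ u v, Path E u w v) ∧ ∀ u v, Path E u w v → v = q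

/-- Synchronizing deterministic presentations of `X`. -/
def IsSDP {V α : Type} (E : V → α → V → Prop) (X : Set (ℤ → α)) : Prop :=
  Deterministic E ∧ (∀ q, ∃ w, SyncTo E w q) ∧ XG E = X

/-- The least number of vertices of a synchronizing deterministic presentation of `X`. -/
noncomputable def sNum {α : Type} (X : Set (ℤ → α)) : ℕ :=
  sInf {n | ∃ (V : Type) (_ : Fintype V) (E : V → α → V → Prop), Fintype.card V = n ∧ IsSDP E X}

/-- `X` is `M`-step: it is the set of sequences avoiding a set of words of length `M + 1`. -/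
def IsStep {α : Type} (M : ℕ) (X : Set (ℤ → α)) : Prop :=
  ∃ F : Set (Fin (M + 1) → α), X = {x | ∀ i : ℤ, (fun j : Fin (M + 1) => x (i + (j : ℕ))) ∉ F}

/-- Shifts of finite type. -/
def IsSFT {α : Type} (X : Set (ℤ → α)) : Prop := ∃ M, IsStep M X

/-- The minimum step. -/
noncomputable def mNum {α : Type} (X : Set (ℤ → α)) : ℕ := sInf {M | IsStep M X}

/-! ### The family -/

section family

variable (k : ℕ)

/-- Vertices: two copies of `Fin (k + 1)`. -/
abbrev Vt := Fin (k + 1) ⊕ Fin (k + 1)

/-- Letters: a letter for each ordered pair of vertices, and the letters `ℓ_t`. -/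
abbrev Al := (Vt k × Vt k) ⊕ Fin ((k + 1) * (k + 1) - 1)

def pp (t : ℕ) : Vt k := Sum.inl (Fin.ofNat (k + 1) (t / (k + 1)))
def qq (t : ℕ) : Vt k := Sum.inr (Fin.ofNat (k + 1) (t % (k + 1)))

/-- The edges. -/
def Ed (u : Vt k) (a : Al k) (v : Vt k) : Prop :=
  match a with
  | Sum.inl (b, c) => u = b ∧ v = c
  | Sum.inr t => (u = pp k t ∧ v = pp k (t + 1)) ∨ (u = qq k t ∧ v = qq k (t + 1))

/-- The shift. -/
def Xk : Set (ℤ → Al k) := XG (Ed k)

theorem pp_ne_qq (s t : ℕ) : pp k s ≠ qq k t := by simp [pp, qq]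

theorem pair_inj {s t : ℕ} (hs : s < (k + 1) * (k + 1)) (ht : t < (k + 1) * (k + 1))
    (h1 : pp k s = pp k t) (h2 : qq k s = qq k t) : s = t := by
  simp only [pp, qq, Sum.inl.injEq, Sum.inr.injEq, Fin.ext_iff, Fin.val_ofNat, Nat.mod_mod] at h1 h2
  rw [Nat.mod_eq_of_lt (Nat.div_lt_of_lt_mul hs), Nat.mod_eq_of_lt (Nat.div_lt_of_lt_mul ht)] at h1
  rw [← Nat.div_add_mod s (k + 1), ← Nat.div_add_mod t (k + 1), h1, h2]

theorem det : Deterministic (Ed k) := by
  intro u a v v' h h'
  rcases a with ⟨b, c⟩ | t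
  · obtain ⟨-, rfl⟩ := h
    obtain ⟨-, rfl⟩ := h'
    rfl
  · rcases h with ⟨h1, rfl⟩ | ⟨h1, rfl⟩ <;> rcases h' with ⟨h1', rfl⟩ | ⟨h1', rfl⟩
    · rfl
    · exact absurd (h1.symm.trans h1') (pp_ne_qq k _ _)
    · exact absurd (h1'.symm.trans h1) (pp_ne_qq k _ _)
    · rfl

theorem sync (q : Vt k) : ∃ w, SyncTo (Ed k) w q := by
  refine ⟨[Sum.inl (q, q)], ⟨q, q, q, ⟨rfl, rfl⟩, rfl⟩, ?_⟩
  rintro u v ⟨u', ⟨-, rfl⟩, h⟩
  exact h.symm

theorem sdp : IsSDP (Ed k) (Xk k) := ⟨det k, sync k, rfl⟩

theorem sNum_le : sNum (Xk k) ≤ 2 * (k + 1) := by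
  apply Nat.sInf_le
  refine ⟨Vt k, inferInstance, Ed k, ?_, sdp k⟩
  simp
  ring

theorem le_sNum : 2 * (k + 1) ≤ sNum (Xk k) := by
  have hne : {n | ∃ (V : Type) (_ : Fintype V) (E : V → Al k → V → Prop),
      Fintype.card V = n ∧ IsSDP E (Xk k)}.Nonempty :=
    ⟨_, Vt k, inferInstance, Ed k, rfl, sdp k⟩
  obtain ⟨V, _, E, hcard, -, -, hX⟩ := Nat.sInf_mem hne
  have hs : sNum (Xk k) = Fintype.card V := hcard.symm
  rw [hs]
  have hw : ∀ q : Vt k, ∃ v : ℤ → V, ∀ i, E (v i) (Sum.inl (q, q)) (v (i + 1)) := by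
    intro q
    have : (fun _ : ℤ => (Sum.inl (q, q) : Al k)) ∈ XG E := by
      rw [hX]
      exact ⟨fun _ => q, fun i => ⟨rfl, rfl⟩⟩
    exact this
  choose v hv using hw
  have hinj : Function.Injective (fun q => v q 0) := by
    intro q q' h
    have h : v q 0 = v q' 0 := h
    have : (fun i : ℤ => if i < 0 then (Sum.inl (q, q) : Al k) else Sum.inl (q', q')) ∈ XG E := by
      refine ⟨fun i => if i < 0 then v q i else v q' i, fun i => ?_⟩
      by_cases hi : i < 0
      · by_cases hi1 : i + 1 < 0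
        · simp only [hi, hi1, if_true]
          exact hv q i
        · have : i = -1 := by omega
          subst this
          simp only [Int.reduceNeg, Int.reduceLT, neg_add_cancel, lt_self_iff_false, if_true, if_false]
          rw [← h]
          exact hv q (-1)
      · have hi1 : ¬ i + 1 < 0 := by omega
        simp only [hi, hi1, if_false]
        exact hv q' i
    rw [hX] at this
    obtain ⟨u, hu⟩ := this
    have h1 := hu (-1)
    have h2 := hu 0
    simp only [Int.reduceNeg, Int.reduceLT, neg_add_cancel, lt_self_iff_false, if_true, if_false,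
      Ed] at h1 h2
    rw [← h1.2, ← h2.1]
  have := Fintype.card_le_of_injective _ hinj
  have h2 : Fintype.card (Vt k) = 2 * (k + 1) := by
    simp
    ring
  omega

/-- Two paths with the same label of length `(k+1)^2` have the same end. -/
theorem unique_end (a : ℕ → Al k) (u u' : ℕ → Vt k)
    (h : ∀ j < (k + 1) * (k + 1), Ed k (u j) (a j) (u (j + 1)))
    (h' : ∀ j < (k + 1) * (k + 1), Ed k (u' j) (a j) (u' (j + 1))) :
    u ((k + 1) * (k + 1)) = u' ((k + 1) * (k + 1)) := by
  by_contra hne
  have hall : ∀ d ≤ (k + 1) * (k + 1), u ((k + 1) * (k + 1) - d) ≠ u' ((k + 1) * (k + 1) - d) := by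
    intro d
    induction d with
    | zero => intro _; simpa using hne
    | succ d ih =>
      intro hd heq
      apply ih (by omega)
      have e1 := h ((k + 1) * (k + 1) - (d + 1)) (by omega)
      have e2 := h' ((k + 1) * (k + 1) - (d + 1)) (by omega)
      have e3 : (k + 1) * (k + 1) - (d + 1) + 1 = (k + 1) * (k + 1) - d := by omega
      rw [e3] at e1 e2
      rw [heq] at e1
      exact det k _ _ _ _ e1 e2
  have hall' : ∀ j ≤ (k + 1) * (k + 1), u j ≠ u' j := by
    intro j hj
    have := hall ((k + 1) * (k + 1) - j) (by omega)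
    rwa [Nat.sub_sub_self hj] at this
  -- all letters are of the second kind
  have hlet : ∀ j < (k + 1) * (k + 1), ∃ t : ℕ, t + 1 < (k + 1) * (k + 1) ∧
      (({u j, u' j} : Set (Vt k)) = {pp k t, qq k t}) ∧
      (({u (j + 1), u' (j + 1)} : Set (Vt k)) = {pp k (t + 1), qq k (t + 1)}) := by
    intro j hj
    have e1 := h j hj
    have e2 := h' j hj
    rcases ha : a j with ⟨b, c⟩ | t
    · rw [ha] at e1 e2
      exact absurd (e1.1.trans e2.1.symm) (hall' j hj.le)
    · rw [ha] at e1 e2
      refine ⟨t, by have := t.2; omega, ?_⟩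
      rcases e1 with ⟨h1, h2⟩ | ⟨h1, h2⟩ <;> rcases e2 with ⟨h1', h2'⟩ | ⟨h1', h2'⟩
      · exact absurd (h1.trans h1'.symm) (hall' j hj.le)
      · rw [h1, h2, h1', h2']
        exact ⟨rfl, rfl⟩
      · rw [h1, h2, h1', h2']
        exact ⟨Set.pair_comm _ _, Set.pair_comm _ _⟩
      · exact absurd (h1.trans h1'.symm) (hall' j hj.le)
  choose! t ht1 ht2 ht3 using hlet
  have hpos : 0 < (k + 1) * (k + 1) := by positivity
  have pair_set : ∀ s r : ℕ, (({pp k s, qq k s} : Set (Vt k)) = {pp k r, qq k r}) →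
      pp k s = pp k r ∧ qq k s = qq k r := by
    intro s r hsr
    have m1 : pp k s ∈ ({pp k r, qq k r} : Set (Vt k)) := hsr ▸ Or.inl rfl
    have m2 : qq k s ∈ ({pp k r, qq k r} : Set (Vt k)) := hsr ▸ Or.inr rfl
    rcases m1 with m1 | m1
    · rcases m2 with m2 | m2
      · exact absurd m2.symm (pp_ne_qq k _ _)
      · exact ⟨m1, m2⟩
    · exact absurd m1 (pp_ne_qq k _ _)
  have hval : ∀ j, j < (k + 1) * (k + 1) → t j = t 0 + j := by
    intro j
    induction j with
    | zero => intro _; rfl
    | succ j ih =>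
      intro hj
      have e1 := ht3 j (by omega)
      have e2 := ht2 (j + 1) hj
      rw [e1] at e2
      obtain ⟨p1, p2⟩ := pair_set _ _ e2
      have l1 : t j + 1 < (k + 1) * (k + 1) := ht1 j (by omega)
      have l2 : t (j + 1) < (k + 1) * (k + 1) := by have := ht1 (j + 1) hj; omega
      have := pair_inj k l1 l2 p1 p2
      rw [← this, ih (by omega)]
      omega
  have h1 := hval ((k + 1) * (k + 1) - 1) (by omega)
  have h2 := ht1 ((k + 1) * (k + 1) - 1) (by omega)
  omega

theorem isSFT : IsStep ((k + 1) * (k + 1)) (Xk k) := by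
  set L := (k + 1) * (k + 1) with hL
  refine ⟨{w | ¬ ∃ v : ℕ → Vt k, ∀ j : Fin (L + 1), Ed k (v j) (w j) (v (j + 1))}, ?_⟩
  ext x
  constructor
  · rintro ⟨v, hv⟩ i hno
    apply hno
    refine ⟨fun j => v (i + j), fun j => ?_⟩
    have := hv (i + (j : ℕ))
    push_cast
    rw [← add_assoc]
    exact this
  · intro hx
    have hx' : ∀ i : ℤ, ∃ v : ℕ → Vt k, ∀ j : ℕ, j < L + 1 → Ed k (v j) (x (i + j)) (v (j + 1)) := by
      intro i
      have := hx i
      simp only [Set.mem_ofPred_eq, not_not] at this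
      obtain ⟨v, hv⟩ := this
      exact ⟨v, fun j hj => hv ⟨j, hj⟩⟩
    choose v hv using hx'
    refine ⟨fun i => v (i - L) L, fun i => ?_⟩
    have e1 := hv (i - L) L (by omega)
    have e2 : i - (L : ℤ) + (L : ℕ) = i := by ring
    rw [e2] at e1
    have e3 : v (i - L) (L + 1) = v (i + 1 - L) L := by
      have := unique_end k (fun j => x (i + 1 - L + j)) (fun j => v (i - L) (j + 1))
        (fun j => v (i + 1 - L) j) (fun j hj => ?_) (fun j hj => hv _ j (by omega))
      · exact this
      · have e4 := hv (i - L) (j + 1) (by omega)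
        have e5 : i - (L : ℤ) + ((j + 1 : ℕ) : ℤ) = i + 1 - L + j := by push_cast; ring
        rw [e5] at e4
        exact e4
    show Ed k (v (i - L) L) (x i) (v (i + 1 - L) L)
    rw [← e3]
    exact e1

theorem step_ge {M : ℕ} (h : IsStep M (Xk k)) : (k + 1) * (k + 1) ≤ M := by
  by_contra hlt
  obtain ⟨F, hF⟩ := h
  set T := (k + 1) * (k + 1) - 1 with hT
  have hMT : M ≤ T := by omega
  -- the middle part
  let mid : ∀ i : ℤ, 0 ≤ i → i < T → Al k := fun i _ hi2 =>
    Sum.inr ⟨i.toNat, by omega⟩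
  let mk : Vt k → Vt k → ℤ → Al k := fun a b i =>
    if h : 0 ≤ i ∧ i < T then mid i h.1 h.2 else if i < 0 then Sum.inl (a, a) else Sum.inl (b, b)
  have hx : mk (pp k 0) (pp k T) ∈ Xk k := by
    refine ⟨fun i => if i < 0 then pp k 0 else if i < T then pp k i.toNat else pp k T, fun i => ?_⟩
    simp only [mk, mid]
    by_cases h1 : 0 ≤ i ∧ i < T
    · rw [dif_pos h1, if_neg (by omega), if_pos h1.2, if_neg (by omega)]
      left
      refine ⟨rfl, ?_⟩
      by_cases h2 : i + 1 < T
      · rw [if_pos h2]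
        congr 1
        simp only
        omega
      · rw [if_neg h2]
        congr 1
        simp only
        omega
    · rw [dif_neg h1]
      by_cases h2 : i < 0
      · rw [if_pos h2, if_pos h2]
        refine ⟨rfl, ?_⟩
        by_cases h3 : i + 1 < 0
        · rw [if_pos h3]
        · have : i = -1 := by omega
          subst this
          rw [if_neg h3]
          by_cases h4 : (-1 : ℤ) + 1 < T
          · rw [if_pos h4]; rfl
          · rw [if_neg h4]
            congr 1
            omega
      · rw [if_neg h2, if_neg h2, if_neg (by omega), if_neg (by omega), if_neg (by omega)]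
        exact ⟨rfl, rfl⟩
  have hy : mk (qq k 0) (qq k T) ∈ Xk k := by
    refine ⟨fun i => if i < 0 then qq k 0 else if i < T then qq k i.toNat else qq k T, fun i => ?_⟩
    simp only [mk, mid]
    by_cases h1 : 0 ≤ i ∧ i < T
    · rw [dif_pos h1, if_neg (by omega), if_pos h1.2, if_neg (by omega)]
      right
      refine ⟨rfl, ?_⟩
      by_cases h2 : i + 1 < T
      · rw [if_pos h2]
        congr 1
        simp only
        omega
      · rw [if_neg h2]
        congr 1
        simp only
        omega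
    · rw [dif_neg h1]
      by_cases h2 : i < 0
      · rw [if_pos h2, if_pos h2]
        refine ⟨rfl, ?_⟩
        by_cases h3 : i + 1 < 0
        · rw [if_pos h3]
        · have : i = -1 := by omega
          subst this
          rw [if_neg h3]
          by_cases h4 : (-1 : ℤ) + 1 < T
          · rw [if_pos h4]; rfl
          · rw [if_neg h4]
            congr 1
            omega
      · rw [if_neg h2, if_neg h2, if_neg (by omega), if_neg (by omega), if_neg (by omega)]
        exact ⟨rfl, rfl⟩
  have hz : mk (pp k 0) (qq k T) ∈ Xk k := by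
    rw [hF] at hx hy ⊢
    intro i
    by_cases hi : i + M < T
    · have e : (fun j : Fin (M + 1) => mk (pp k 0) (qq k T) (i + (j : ℕ))) =
          fun j : Fin (M + 1) => mk (pp k 0) (pp k T) (i + (j : ℕ)) := by
        ext1 j
        have hj : (j : ℕ) < M + 1 := j.2
        simp only [mk]
        by_cases h1 : 0 ≤ i + ((j : ℕ) : ℤ) ∧ i + ((j : ℕ) : ℤ) < T
        · rw [dif_pos h1, dif_pos h1]
        · rw [dif_neg h1, dif_neg h1, if_pos (by omega), if_pos (by omega)]
      rw [e]
      exact hx i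
    · have e : (fun j : Fin (M + 1) => mk (pp k 0) (qq k T) (i + (j : ℕ))) =
          fun j : Fin (M + 1) => mk (qq k 0) (qq k T) (i + (j : ℕ)) := by
        ext1 j
        simp only [mk]
        by_cases h1 : 0 ≤ i + ((j : ℕ) : ℤ) ∧ i + ((j : ℕ) : ℤ) < T
        · rw [dif_pos h1, dif_pos h1]
        · rw [dif_neg h1, dif_neg h1, if_neg (by omega), if_neg (by omega)]
      rw [e]
      exact hy i
  obtain ⟨v, hv⟩ := hz
  have h0 : v 0 = pp k 0 := by
    have := hv (-1)
    simp only [mk] at this
    rw [dif_neg (by omega), if_pos (by omega)] at this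
    exact this.2
  have hn : ∀ n : ℕ, n ≤ T → v n = pp k n := by
    intro n
    induction n with
    | zero => intro _; exact h0
    | succ n ih =>
      intro hn
      have h1 := hv n
      simp only [mk, mid] at h1
      rw [dif_pos (by omega)] at h1
      rcases h1 with ⟨h1, h2⟩ | ⟨h1, h2⟩
      · push_cast
        rw [h2]
        congr 1
      · rw [ih (by omega)] at h1
        exact absurd h1 (pp_ne_qq k _ _)
  have h1 := hv T
  simp only [mk] at h1
  rw [dif_neg (by omega), if_neg (by omega), hn T le_rfl] at h1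
  exact pp_ne_qq k _ _ h1.1

end family

/-- There are shifts of finite type `X_n` over finite alphabets with `s(X_n) → ∞` and
`m(X_n) ≥ s(X_n)^2 / 4`. -/
theorem result : ∃ (α : ℕ → Type) (_ : ∀ n, Finite (α n)) (X : ∀ n, Set (ℤ → α n)),
    (∀ n, IsSFT (X n)) ∧ Tendsto (fun n => sNum (X n)) atTop atTop ∧
    ∃ c : ℝ, 0 < c ∧ ∀ n, c * (sNum (X n) : ℝ) ^ 2 ≤ (mNum (X n) : ℝ) := by
  refine ⟨Al, fun n => inferInstance, Xk, fun n => ⟨_, isSFT n⟩, ?_, 1 / 4, by norm_num, ?_⟩
  · apply tendsto_atTop_mono (f := fun n => n)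
    · intro n
      have := le_sNum n
      omega
    · exact tendsto_id
  · intro n
    have h1 : ((sNum (Xk n) : ℕ) : ℝ) ≤ 2 * (n + 1) := by exact_mod_cast sNum_le n
    have h2 : (n + 1) * (n + 1) ≤ mNum (Xk n) := by
      have hne : {M | IsStep M (Xk n)}.Nonempty := ⟨_, isSFT n⟩
      exact step_ge n (Nat.sInf_mem hne)
    have h3 : ((n : ℝ) + 1) * (n + 1) ≤ (mNum (Xk n) : ℝ) := by exact_mod_cast h2
    have h4 : (0 : ℝ) ≤ sNum (Xk n) := by positivity
    nlinarith

end Pool.Agent.Results.MP_560fdc_co.QuadraticStep
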